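import Pool.Agent.Helper76.CQ.Defs
import Pool.Agent.Helper86.CY.SolveNormal

/-!
# The differential of the self-map as a linear map (piece CQ-5c)
-/

namespace Pool.Agent.Helper4.CQ

open MvPolynomial Pool.Agent.Helper76.CY Pool.Agent.Helper76.CQ Pool.Agent.Helper86.CY Filter Topology

section lin

variable {K : Type*} [Field K]

/-- the right hand side of the linear system -/
def rhsB (D : Ten K) (τ : Idx → K) : Fin 6 → K := fun p =>
  -(tri D (bv K 3) (tv τ (P6 p).1) (bv K (c3 (P6 p).2)) +
    tri D (bv K 3) (bv K (c3 (P6 p).1)) (tv τ (P6 p).2))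

/-- the normal vector -/
noncomputable def mB (D : Ten K) (τ : Idx → K) : Fin 10 → K :=
  ext6 ((matA D (fun i => bv K (c3 i)))⁻¹.mulVec (rhsB D τ))

/-- the numerators of the coefficients -/
noncomputable def nB (D : Ten K) (τ : Idx → K) : Fin 3 → K :=
  ![tri D (tv τ 1) (bv K 3) (bv K 3) + 2 * tri D (bv K 1) (bv K 3) (mB D τ),
    tri D (tv τ 2) (bv K 3) (bv K 3) + 2 * tri D (bv K 2) (bv K 3) (mB D τ),
    tri D (bv K 3) (bv K 3) (mB D τ)]

/-- the coefficients -/
noncomputable def cB (D : Ten K) (τ : Idx → K) : Fin 3 → K := fun i => (D 0 3 3)⁻¹ * nB D τ i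

/-- the three vectors before the subtraction -/
noncomputable def vB (D : Ten K) (τ : Idx → K) : Fin 3 → Fin 10 → K :=
  ![tv τ 1, tv τ 2, mB D τ]

/-- the image -/
noncomputable def sB (D : Ten K) (τ : Idx → K) : Idx → K := fun q =>
  (vB D τ q.1 - cB D τ q.1 • bv K 0) (Fin.castLE (by norm_num) q.2 + 4)

theorem ext6_add (x y : Fin 6 → K) : ext6 (x + y) = ext6 x + ext6 y := by
  funext j
  simp only [ext6, Pi.add_apply]
  split_ifs <;> simp

theorem ext6_smul (c : K) (x : Fin 6 → K) : ext6 (c • x) = c • ext6 x := by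
  funext j
  simp only [ext6, Pi.smul_apply]
  split_ifs <;> simp

theorem rhsB_add (D : Ten K) (a b : Idx → K) : rhsB D (a + b) = rhsB D a + rhsB D b := by
  funext p
  simp only [rhsB, Pi.add_apply, tv_add, tri_add_mid, tri_add_right]
  ring

theorem rhsB_smul (D : Ten K) (c : K) (a : Idx → K) : rhsB D (c • a) = c • rhsB D a := by
  funext p
  simp only [rhsB, Pi.smul_apply, smul_eq_mul, tv_smul, tri_smul_mid, tri_smul_right]
  ring

theorem mB_add (D : Ten K) (a b : Idx → K) : mB D (a + b) = mB D a + mB D b := by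
  rw [mB, rhsB_add, Matrix.mulVec_add, ext6_add]
  rfl

theorem mB_smul (D : Ten K) (c : K) (a : Idx → K) : mB D (c • a) = c • mB D a := by
  rw [mB, rhsB_smul, Matrix.mulVec_smul, ext6_smul]
  rfl

theorem nB_add (D : Ten K) (a b : Idx → K) (i : Fin 3) : nB D (a + b) i = nB D a i + nB D b i := by
  fin_cases i
  · simp only [nB, Fin.zero_eta, Matrix.cons_val_zero, mB_add, tv_add, tri_add_left, tri_add_right]
    ring
  · simp only [nB, Fin.mk_one, Matrix.cons_val_one, Matrix.cons_val_zero, mB_add, tv_add,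
      tri_add_left, tri_add_right]
    ring
  · simp only [nB, Fin.reduceFinMk, Matrix.cons_val, mB_add, tri_add_right]

theorem nB_smul (D : Ten K) (c : K) (a : Idx → K) (i : Fin 3) :
    nB D (c • a) i = c * nB D a i := by
  fin_cases i
  · simp only [nB, Fin.zero_eta, Matrix.cons_val_zero, mB_smul, tv_smul, tri_smul_left,
      tri_smul_right]
    ring
  · simp only [nB, Fin.mk_one, Matrix.cons_val_one, Matrix.cons_val_zero, mB_smul, tv_smul,
      tri_smul_left, tri_smul_right]
    ring
  · simp only [nB, Fin.reduceFinMk, Matrix.cons_val, mB_smul, tri_smul_right]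

theorem vB_add (D : Ten K) (a b : Idx → K) (i : Fin 3) : vB D (a + b) i = vB D a i + vB D b i := by
  fin_cases i
  · exact tv_add a b 1
  · exact tv_add a b 2
  · exact mB_add D a b

theorem vB_smul (D : Ten K) (c : K) (a : Idx → K) (i : Fin 3) :
    vB D (c • a) i = c • vB D a i := by
  fin_cases i
  · exact tv_smul c a 1
  · exact tv_smul c a 2
  · exact mB_smul D c a

/-- the linear map -/
noncomputable def Bmap (D : Ten K) : (Idx → K) →ₗ[K] (Idx → K) where
  toFun := sB D
  map_add' := by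
    intro a b
    funext q
    simp only [sB, cB, vB_add, nB_add, Pi.add_apply, Pi.sub_apply, Pi.smul_apply, smul_eq_mul]
    ring
  map_smul' := by
    intro c a
    funext q
    simp only [sB, cB, vB_smul, nB_smul, Pi.sub_apply, Pi.smul_apply, smul_eq_mul,
      RingHom.id_apply]
    ring

theorem Bmap_step (D : Ten K) (hD : Window D) (τ : Idx → K) : IsStep D τ (Bmap D τ) := by
  have hdet : IsUnit (matA D (fun i => bv K (c3 i))).det :=
    isUnit_iff_ne_zero.2 (det_matA_ne_zero D hD)
  obtain ⟨e0, e1, e2, e3⟩ := ext6_low ((matA D (fun i => bv K (c3 i)))⁻¹.mulVec (rhsB D τ))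
  have hc : ∀ i, cB D τ i * D 0 3 3 = nB D τ i := by
    intro i
    rw [cB]
    field_simp [hD.alpha]
  refine ⟨mB D τ, cB D τ, e0, e1, e2, e3, ?_, hc 0, hc 1, hc 2, ?_⟩
  · intro i j
    refine all_of_P6 (fun i j => tri D (mB D τ) (bv K (c3 i)) (bv K (c3 j)) +
      tri D (bv K 3) (tv τ i) (bv K (c3 j)) + tri D (bv K 3) (bv K (c3 i)) (tv τ j)) ?_ 0 ?_ i j
    · intro i j
      rw [tri_swap23 hD.swap23 (mB D τ) (bv K (c3 i)) (bv K (c3 j)),
        tri_swap23 hD.swap23 (bv K 3) (tv τ i) (bv K (c3 j)),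
        tri_swap23 hD.swap23 (bv K 3) (bv K (c3 i)) (tv τ j)]
      ring
    · intro p
      have h1 := congrFun (show (matA D (fun i => bv K (c3 i))).mulVec
        ((matA D (fun i => bv K (c3 i)))⁻¹.mulVec (rhsB D τ)) = rhsB D τ by
          rw [Matrix.mulVec_mulVec, Matrix.mul_nonsing_inv _ hdet, Matrix.one_mulVec]) p
      rw [matA_mulVec] at h1
      change tri D (mB D τ) _ _ + _ + _ = 0
      have h2 : tri D (mB D τ) (bv K (c3 (P6 p).1)) (bv K (c3 (P6 p).2)) = rhsB D τ p := h1
      rw [h2, rhsB]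
      ring
  · intro k
    exact ⟨rfl, rfl, rfl⟩

end lin

section cont

theorem det_contAt {K X : Type*} [CommRing K] [TopologicalSpace K] [IsTopologicalRing K]
    [TopologicalSpace X] {f : X → Matrix (Fin 6) (Fin 6) K} {x : X} (h : ContinuousAt f x) :
    ContinuousAt (fun y => (f y).det) x :=
  ContinuousAt.comp (g := fun M : Matrix (Fin 6) (Fin 6) K => M.det)
    (Continuous.matrix_det continuous_id).continuousAt h

theorem adj_contAt {K X : Type*} [CommRing K] [TopologicalSpace K] [IsTopologicalRing K]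
    [TopologicalSpace X] {f : X → Matrix (Fin 6) (Fin 6) K} {x : X} (h : ContinuousAt f x) :
    ContinuousAt (fun y => (f y).adjugate) x :=
  ContinuousAt.comp (g := fun M : Matrix (Fin 6) (Fin 6) K => M.adjugate)
    (Continuous.matrix_adjugate continuous_id).continuousAt h

variable {D : Ten ℚ_[2]}

theorem tri_contAt {x y z : Ten ℚ_[2] → Fin 10 → ℚ_[2]} (hx : ∀ i, ContinuousAt (fun D => x D i) D)
    (hy : ∀ i, ContinuousAt (fun D => y D i) D) (hz : ∀ i, ContinuousAt (fun D => z D i) D) :
    ContinuousAt (fun D => tri D (x D) (y D) (z D)) D := by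
  unfold tri
  refine tendsto_finset_sum _ fun i _ => tendsto_finset_sum _ fun j _ =>
    tendsto_finset_sum _ fun k _ => ?_
  have h1 : ContinuousAt (fun D : Ten ℚ_[2] => algebraMap ℚ_[2] ℚ_[2] (D i j k)) D := by
    simp only [Algebra.algebraMap_self, RingHom.id_apply]
    exact Continuous.continuousAt (by fun_prop)
  exact ((h1.mul (hx i)).mul (hy j)).mul (hz k)

theorem ext6_contAt {x : Ten ℚ_[2] → Fin 6 → ℚ_[2]} (hx : ∀ i, ContinuousAt (fun D => x D i) D)
    (j : Fin 10) : ContinuousAt (fun D => ext6 (x D) j) D := by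
  unfold ext6
  split_ifs
  · exact continuousAt_const
  · exact hx _

theorem const_contAt {n : ℕ} (x : Fin n → ℚ_[2]) (i : Fin n) :
    ContinuousAt (fun _ : Ten ℚ_[2] => x i) D := continuousAt_const

theorem mB_contAt (hD : Window D) (τ : Idx → ℚ_[2]) (j : Fin 10) :
    ContinuousAt (fun D => mB D τ j) D := by
  have hmat : ContinuousAt (fun D : Ten ℚ_[2] => matA D (fun i => bv ℚ_[2] (c3 i))) D := by
    refine continuousAt_pi.2 fun p => continuousAt_pi.2 fun k => ?_
    exact tri_contAt (const_contAt _) (const_contAt _) (const_contAt _)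
  have hdet : ContinuousAt (fun D : Ten ℚ_[2] => (matA D (fun i => bv ℚ_[2] (c3 i))).det) D :=
    det_contAt hmat
  have hadj : ContinuousAt (fun D : Ten ℚ_[2] =>
      (matA D (fun i => bv ℚ_[2] (c3 i))).adjugate) D :=
    adj_contAt hmat
  have hinv : ContinuousAt (fun D : Ten ℚ_[2] =>
      ((matA D (fun i => bv ℚ_[2] (c3 i))).det)⁻¹) D := hdet.inv₀ (det_matA_ne_zero D hD)
  have hrhs : ∀ p, ContinuousAt (fun D : Ten ℚ_[2] => rhsB D τ p) D := by
    intro p
    unfold rhsB
    exact ((tri_contAt (const_contAt _) (const_contAt _) (const_contAt _)).add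
      (tri_contAt (const_contAt _) (const_contAt _) (const_contAt _))).neg
  refine ext6_contAt (fun i => ?_) j
  have e : (fun D : Ten ℚ_[2] => ((matA D (fun i => bv ℚ_[2] (c3 i)))⁻¹.mulVec (rhsB D τ)) i)
      = fun D => ∑ k, ((matA D (fun i => bv ℚ_[2] (c3 i))).det)⁻¹ *
        (matA D (fun i => bv ℚ_[2] (c3 i))).adjugate i k * rhsB D τ k := by
    funext D
    rw [Matrix.inv_def, Ring.inverse_eq_inv', Matrix.mulVec, dotProduct]
    rfl
  rw [e]
  refine tendsto_finset_sum _ fun k _ => ?_
  have h2 : ContinuousAt (fun D : Ten ℚ_[2] =>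
      (matA D (fun i => bv ℚ_[2] (c3 i))).adjugate i k) D :=
    (continuousAt_pi.1 (continuousAt_pi.1 hadj i) k)
  exact (hinv.mul h2).mul (hrhs k)

theorem nB_contAt (hD : Window D) (τ : Idx → ℚ_[2]) (i : Fin 3) :
    ContinuousAt (fun D => nB D τ i) D := by
  fin_cases i
  · exact (tri_contAt (const_contAt _) (const_contAt _) (const_contAt _)).add
      ((continuousAt_const).mul (tri_contAt (const_contAt _) (const_contAt _) (mB_contAt hD τ)))
  · exact (tri_contAt (const_contAt _) (const_contAt _) (const_contAt _)).add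
      ((continuousAt_const).mul (tri_contAt (const_contAt _) (const_contAt _) (mB_contAt hD τ)))
  · exact tri_contAt (const_contAt _) (const_contAt _) (mB_contAt hD τ)

theorem cB_contAt (hD : Window D) (τ : Idx → ℚ_[2]) (i : Fin 3) :
    ContinuousAt (fun D => cB D τ i) D := by
  unfold cB
  have h1 : ContinuousAt (fun D : Ten ℚ_[2] => D 0 3 3) D :=
    Continuous.continuousAt (by fun_prop)
  exact (h1.inv₀ hD.alpha).mul (nB_contAt hD τ i)

theorem vB_contAt (hD : Window D) (τ : Idx → ℚ_[2]) (i : Fin 3) (j : Fin 10) :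
    ContinuousAt (fun D => vB D τ i j) D := by
  fin_cases i
  · exact continuousAt_const
  · exact continuousAt_const
  · exact mB_contAt hD τ j

end cont

theorem exists_Bmap : ∃ B : Ten ℚ_[2] → ((Idx → ℚ_[2]) →ₗ[ℚ_[2]] (Idx → ℚ_[2])),
    (∀ D, Window D → ∀ τ, IsStep D τ (B D τ)) ∧
      ∀ D, Window D → ∀ p q, ContinuousAt (fun D' => B D' (Pi.single q 1) p) D := by
  refine ⟨Bmap, fun D hD τ => Bmap_step D hD τ, fun D hD p q => ?_⟩
  change ContinuousAt (fun D' => sB D' (Pi.single q 1) p) D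
  unfold sB
  simp only [Pi.sub_apply, Pi.smul_apply, smul_eq_mul]
  exact (vB_contAt hD _ _ _).sub ((cB_contAt hD _ _).mul continuousAt_const)

end Pool.Agent.Helper4.CQ
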